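import Pool.Agent.V7H60.CV.Small
import Pool.Agent.N147.DR.Lat
import Pool.Agent.N147.DR.Typ
import Pool.Agent.N530.DR.Large
import Pool.Agent.N262.DR.Places
import Pool.Agent.N97.DR.Core
import Pool.Agent.N459.DR.Red
import Pool.Agent.N572.DR.Link
import Pool.Agent.N262.DR.Deg
import Pool.Agent.N572.DR.Diag
import Pool.Agent.N572.DR.KE

/-! The exceptional set of project DR. -/

set_option autoImplicit false

namespace Pool.Agent.V7H38.FR

open Pool.Agent.N753.DR

theorem large : StmLarge := Pool.Agent.N530.DR.t Pool.Agent.N147.DR.t Pool.Agent.N147.DR.typ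

theorem core : StmCore :=
  Pool.Agent.N97.DR.Core.t Pool.Agent.N147.DR.typ large Pool.Agent.V7H60.CV.small
    Pool.Agent.N262.DR.places

theorem deg : StmDeg :=
  Pool.Agent.N262.DR.deg core Pool.Agent.N459.DR.t Pool.Agent.N572.DR.Link.t

theorem ke : StmKE := Pool.Agent.N572.DR.KE.t Pool.Agent.N572.DR.Diag.t deg

end Pool.Agent.V7H38.FR
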