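import Mathlib
import Pool.Agent.N751.FR.Stm2
import Pool.Agent.N271.FR.One
import Pool.Agent.N400.FR.Sim
import Pool.Agent.N707.DR.VkG
import Pool.Agent.N751.FR.Loc

/-!
# Project FR, final part: the exceptional set and the point at infinity
-/

set_option autoImplicit false

namespace Pool.Agent.V7H38.FR

open NumberField IsDedekindDomain Module Polynomial Height
open Pool.Agent.N753.DR Pool.Agent.N415.DRVK Pool.Agent.N751.FR Pool.Agent.N400.FRSim
open Pool.Agent.N707.DRVkG (Ex rv ex_count minpoly_inv deg_inv coeff0_ne sepZ)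

section

variable {K : Type} [Field K] [NumberField K]

theorem isExc_mono {r : ℕ} {E E' : Set K[X]} (h : E ⊆ E') (hE : IsExc K r E) : IsExc K r E' := by
  intro S F h1 h2 h3 κ hκ
  obtain ⟨C, hC⟩ := hE S F h1 h2 h3 κ hκ
  refine ⟨C, ?_⟩
  intro M _ _ _ x g1 g2 g3
  exact hC M x g1 g2 fun h4 => g3 (h h4)

theorem subset_Ex (E : Set K[X]) : E ⊆ Ex E := Set.subset_union_left

/-- outside the larger set the inverse is not exceptional -/
theorem inv_not_mem {E : Set K[X]} {M : Type} [Field M] [NumberField M] [Algebra K M] {x : M}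
    (hx : x ≠ 0) (h : minpoly K x ∉ Ex E) : minpoly K x⁻¹ ∉ E := by
  have hfd : FiniteDimensional K M := Module.Finite.of_restrictScalars_finite ℚ K M
  have hi : IsIntegral K x := Algebra.IsIntegral.isIntegral x
  intro h1
  apply h
  right
  refine ⟨coeff0_ne hi hx, ?_⟩
  rw [← minpoly_inv hi hx]
  exact h1

theorem deg_inv' {M : Type} [Field M] [NumberField M] [Algebra K M] {x : M}
    (hx : x ≠ 0) : (minpoly K x⁻¹).natDegree = (minpoly K x).natDegree := by
  have hfd : FiniteDimensional K M := Module.Finite.of_restrictScalars_finite ℚ K M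
  exact deg_inv (Algebra.IsIntegral.isIntegral x) hx

end

/-- **the exceptional set** -/
theorem exc (h : StmKE) (K : Type) [Field K] [NumberField K] (r : ℕ) (hr : 1 ≤ r) :
    ∃ E E' : Set K[X], IsExc K r E ∧ E' = Ex E ∧ ∀ U : ℝ, 0 ≤ U →
      {p | p ∈ E' ∧ AtH r U p}.Finite ∧
      ({p | p ∈ E' ∧ AtH r U p}.ncard : ℝ) ≤ 2 * Real.exp ((r + 1) * U - √U) := by
  obtain ⟨E, hE, hE'⟩ := h K r hr
  exact ⟨E, Ex E, hE', rfl, fun U hU => ex_count (hE U hU).1 (hE U hU).2⟩

section

variable {K : Type} [Field K] [NumberField K]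

/-- the order of vanishing of `Q` at a zero of `P` modulo `w` -/
theorem val_pow (P Q : K[X]) (hP : Irreducible P) (hQ : Q ≠ 0) : ∃ n : ℕ, n ≠ 0 ∧
    ∀ (M : Type) [Field M] [NumberField M] [Algebra K M] (w : HeightOneSpectrum (𝓞 M)) (x : M),
      (n : 𝓞 M) ∉ w.asIdeal → w.valuation M x ≤ 1 → w.valuation M (aeval x P) < 1 →
      w.valuation M (aeval x Q) = w.valuation M (aeval x P) ^ multiplicity P Q := by
  classical
  have hfm : FiniteMultiplicity P Q := by
    refine FiniteMultiplicity.of_not_isUnit hP.not_isUnit hQ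
  obtain ⟨R, hR, hPR⟩ := hfm.exists_eq_pow_mul_and_not_dvd
  have hcop : IsCoprime P R := (hP.coprime_iff_not_dvd).2 hPR
  obtain ⟨a, b, hab⟩ := hcop
  obtain ⟨n1, hn1, h1⟩ := int_val a
  obtain ⟨n2, hn2, h2⟩ := int_val b
  obtain ⟨n3, hn3, h3⟩ := int_val R
  refine ⟨n1 * n2 * n3, mul_ne_zero (mul_ne_zero hn1 hn2) hn3, ?_⟩
  intro M _ _ _ w x hw hx hv
  have k1 : (n1 : 𝓞 M) ∉ w.asIdeal := fun h => hw (by
    push_cast
    exact Ideal.mul_mem_right _ _ (Ideal.mul_mem_right _ _ h))
  have k2 : (n2 : 𝓞 M) ∉ w.asIdeal := fun h => hw (by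
    push_cast
    exact Ideal.mul_mem_right _ _ (Ideal.mul_mem_left _ _ h))
  have k3 : (n3 : 𝓞 M) ∉ w.asIdeal := fun h => hw (by
    push_cast
    exact Ideal.mul_mem_left _ _ h)
  have va := h1 M w x k1 hx
  have vb := h2 M w x k2 hx
  have vR := h3 M w x k3 hx
  have hlt : w.valuation M (aeval x a * aeval x P) < 1 := by
    rw [map_mul]
    exact lt_of_le_of_lt (mul_le_of_le_one_left' va) hv
  have hone : aeval x a * aeval x P + aeval x b * aeval x R = 1 := by
    have := congrArg (aeval x) hab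
    simpa using this
  have hb1 : w.valuation M (aeval x b * aeval x R) = 1 := by
    have e : aeval x b * aeval x R = 1 - aeval x a * aeval x P := by
      linear_combination hone
    rw [e]
    rw [Valuation.map_sub_eq_of_lt_left, map_one]
    rw [map_one]
    exact hlt
  have hR1 : w.valuation M (aeval x R) = 1 := by
    rw [map_mul] at hb1
    refine le_antisymm vR ?_
    by_contra hc
    rw [not_le] at hc
    have : w.valuation M (aeval x b) * w.valuation M (aeval x R) < 1 := by
      refine lt_of_le_of_lt (mul_le_of_le_one_left' vb) hc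
    exact absurd hb1 this.ne
  have e : aeval x Q = aeval x P ^ multiplicity P Q * aeval x R := by
    conv_lhs => rw [hR]
    rw [map_mul, map_pow]
  rw [e, map_mul, map_pow, hR1, mul_one]

/-- the values at a prime which divides the denominator -/
theorem val_inf (Q : K[X]) (hQ : Q ≠ 0) : ∃ n : ℕ, n ≠ 0 ∧
    ∀ (M : Type) [Field M] [NumberField M] [Algebra K M] (w : HeightOneSpectrum (𝓞 M)) (x : M),
      (n : 𝓞 M) ∉ w.asIdeal → 1 < w.valuation M x →
      w.valuation M (aeval x Q) = w.valuation M x ^ Q.natDegree := by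
  classical
  obtain ⟨n, hn, h⟩ := sepZ (Finset.image Q.coeff Q.support)
  refine ⟨n, hn, ?_⟩
  intro M _ _ _ w x hw hx
  have hx0 : 0 < w.valuation M x := lt_trans zero_lt_one hx
  have hlead : w.valuation M (algebraMap K M Q.leadingCoeff) = 1 := by
    refine h M w hw _ (Finset.mem_image_of_mem _ ?_) (leadingCoeff_ne_zero.2 hQ)
    exact natDegree_mem_support_of_nonzero hQ
  rw [aeval_eq_sum_range, Finset.sum_range_succ]
  have h1 : w.valuation M (Q.coeff Q.natDegree • x ^ Q.natDegree) =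
      w.valuation M x ^ Q.natDegree := by
    rw [Algebra.smul_def, map_mul, map_pow, coeff_natDegree, hlead, one_mul]
  rw [Valuation.map_add_eq_of_lt_right, h1]
  rw [h1]
  refine Valuation.map_sum_lt _ (pow_ne_zero _ hx0.ne') fun i hi => ?_
  rw [Finset.mem_range] at hi
  rw [Algebra.smul_def, map_mul, map_pow]
  by_cases h0 : Q.coeff i = 0
  · rw [h0, map_zero, map_zero, zero_mul]
    exact pow_pos hx0 _
  · rw [h M w hw _ (Finset.mem_image_of_mem _ (mem_support_iff.2 h0)) h0, one_mul]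
    exact pow_lt_pow_right₀ hx hi

/-- the values at a prime modulo which no factor vanishes -/
theorem val_unit (Q : K[X]) (hQ : Q ≠ 0) : ∃ n : ℕ, n ≠ 0 ∧
    ∀ (M : Type) [Field M] [NumberField M] [Algebra K M] (w : HeightOneSpectrum (𝓞 M)) (x : M),
      (n : 𝓞 M) ∉ w.asIdeal → w.valuation M x ≤ 1 →
      (∀ P : K[X], P.Monic → Irreducible P → P ∣ Q → ¬ w.valuation M (aeval x P) < 1) →
      w.valuation M (aeval x Q) = 1 := by
  classical
  induction Q using UniqueFactorizationMonoid.induction_on_prime with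
  | h₁ => exact absurd rfl hQ
  | h₂ u hu =>
    obtain ⟨c, hc, rfl⟩ := Polynomial.isUnit_iff.1 hu
    obtain ⟨n, hn, h⟩ := sepZ {c}
    refine ⟨n, hn, ?_⟩
    intro M _ _ _ w x hw _ _
    rw [aeval_C]
    exact h M w hw c (Finset.mem_singleton_self c) hc.ne_zero
  | h₃ a p ha hp ih =>
    obtain ⟨n1, hn1, h1⟩ := ih ha
    have hp0 : p ≠ 0 := hp.ne_zero
    obtain ⟨n2, hn2, h2⟩ := sepZ {p.leadingCoeff}
    obtain ⟨n3, hn3, h3⟩ := int_val (C p.leadingCoeff⁻¹ * p)
    refine ⟨n1 * n2 * n3, mul_ne_zero (mul_ne_zero hn1 hn2) hn3, ?_⟩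
    intro M _ _ _ w x hw hx hP
    have k1 : (n1 : 𝓞 M) ∉ w.asIdeal := fun h => hw (by
      push_cast
      exact Ideal.mul_mem_right _ _ (Ideal.mul_mem_right _ _ h))
    have k2 : (n2 : 𝓞 M) ∉ w.asIdeal := fun h => hw (by
      push_cast
      exact Ideal.mul_mem_right _ _ (Ideal.mul_mem_left _ _ h))
    have k3 : (n3 : 𝓞 M) ∉ w.asIdeal := fun h => hw (by
      push_cast
      exact Ideal.mul_mem_left _ _ h)
    have g1 := h1 M w x k1 hx fun P h4 h5 h6 => hP P h4 h5 (h6.mul_left _)
    have g2 := h2 M w k2 _ (Finset.mem_singleton_self _) (leadingCoeff_ne_zero.2 hp0)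
    have g3 := h3 M w x k3 hx
    have hl : p.leadingCoeff⁻¹ ≠ 0 := inv_ne_zero (leadingCoeff_ne_zero.2 hp0)
    have hm : (C p.leadingCoeff⁻¹ * p).Monic := by
      unfold Monic
      rw [leadingCoeff_mul, leadingCoeff_C, inv_mul_cancel₀ (leadingCoeff_ne_zero.2 hp0)]
    have hass : Associated (C p.leadingCoeff⁻¹ * p) p :=
      associated_unit_mul_left _ _ (isUnit_C.2 hl.isUnit)
    have hi : Irreducible (C p.leadingCoeff⁻¹ * p) := hass.irreducible_iff.2 hp.irreducible
    have g4 := hP _ hm hi (hass.dvd.trans (dvd_mul_right _ _))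
    have g5 : w.valuation M (aeval x (C p.leadingCoeff⁻¹ * p)) = 1 :=
      le_antisymm g3 (not_lt.1 g4)
    rw [map_mul, aeval_C, map_mul, map_inv₀, map_inv₀, g2, inv_one, one_mul] at g5
    rw [map_mul, map_mul, g5, g1, one_mul]

end

end Pool.Agent.V7H38.FR
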