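import Mathlib
import Pool.Agent.V7H38.FR.Base
import Pool.Agent.N441.FR.TypD
import Pool.Agent.Y733.FF.Main

/-!
# Project FR, final part: one prime and one curve
-/

set_option autoImplicit false

namespace Pool.Agent.V7H38.FR

open NumberField IsDedekindDomain Module Polynomial
open Pool.Agent.N753.DR Pool.Agent.N751.FR
open Pool.Agent.H691R3 hiding muA mu
open Pool.Agent.W223.AK Pool.Agent.Y733.LS
open Pool.Agent.TH876.FH (GoodAt)
open Pool.Agent.Y733.FF

section

variable {M : Type} [Field M] [NumberField M]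

theorem lN_eq (w : HeightOneSpectrum (𝓞 M)) : lN w = Real.log (Nv w) := rfl

theorem lN_pos (w : HeightOneSpectrum (𝓞 M)) : 0 < lN w := log_Nv_pos w

/-- the minimal discriminant at a pole of `j` -/
theorem disc_pole (w : HeightOneSpectrum (𝓞 M)) (W : WeierstrassCurve M) (hW : W.Δ ≠ 0)
    (h6 : w.valuation M 6 = 1) (hp : 1 < w.valuation M (W.c₄ ^ 3 / W.Δ)) :
    (discExp w W : ℝ) * lN w ≤ Real.log (max (fv w (W.c₄ ^ 3 / W.Δ)) 1) + 6 * aw w W := by
  have ha := aw_nonneg w W
  by_cases hs : SemiAt w W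
  · have := semi_disc w W hW hs
    rw [lN_eq]
    linarith
  · have h7 : aw w W = Real.log (Nv w) := by
      unfold aw
      exact if_pos ⟨hs, h6⟩
    have h23 : fv w (2 : M) = 1 ∧ fv w (3 : M) = 1 := by
      have h1 : fv w (2 : M) ≤ 1 := (fv_Na w).ofNat 2
      have h2 : fv w (3 : M) ≤ 1 := (fv_Na w).ofNat 3
      have h3 : fv w (2 : M) * fv w (3 : M) = 1 := by
        rw [← map_mul, show (2 : M) * 3 = 6 by norm_num]
        exact (fv_one_iff w).2 h6
      have h4 : 0 ≤ fv w (2 : M) := (fv w).nonneg _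
      have h5 : 0 ≤ fv w (3 : M) := (fv w).nonneg _
      constructor <;> nlinarith
    have hp' : 1 < fv w (W.c₄ ^ 3 / W.Δ) := by
      rw [← not_le, fv_le_one_iff, not_le]
      exact hp
    have h8 := (disc_bound w W hW).2 h23.1 h23.2 hp'
    rw [lN_eq, h7]
    exact h8

/-- the minimal discriminant at the other primes -/
theorem disc_fin (w : HeightOneSpectrum (𝓞 M)) (W : WeierstrassCurve M) (hW : W.Δ ≠ 0)
    (h6 : w.valuation M 6 = 1) (a c : ℕ)
    (ha : w.valuation M (W.c₄ ^ 3 / W.Δ) = WithZero.exp (-(a : ℤ)))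
    (hc : w.valuation M (W.c₄ ^ 3 / W.Δ - 1728) = WithZero.exp (-(c : ℤ))) :
    (discExp w W : ℝ) * lN w ≤ Real.log (max (fv w (W.c₄ ^ 3 / W.Δ)) 1) + 6 * aw w W +
      muA a c * lN w := by
  obtain ⟨h1, h2, h3⟩ := Pool.Agent.N441.FR.t M w W hW h6 a c ha hc
  have hn := aw_nonneg w W
  have hl : 0 ≤ Real.log (max (fv w (W.c₄ ^ 3 / W.Δ)) 1) := Real.log_nonneg (le_max_right _ _)
  have hp := lN_pos w
  by_cases hs : SemiAt w W
  · rw [h3 hs]
    have : (0 : ℝ) ≤ muA a c * lN w := by positivity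
    push_cast
    linarith
  · have h7 : aw w W = lN w := by
      unfold aw
      exact if_pos ⟨hs, h6⟩
    rw [h7]
    have h8 : (discExp w W : ℝ) ≤ 6 + muA a c := by exact_mod_cast h1
    nlinarith

theorem muA_le (a c : ℕ) : muA a c ≤ 4 := by
  unfold muA
  split_ifs <;> omega

theorem muA_zero {a c : ℕ} (ha : 3 ∣ a) (hc : 2 ∣ c) : muA a c = 0 := by
  unfold muA
  rw [if_neg (by omega), if_neg (by omega), if_neg (by omega)]

/-- the exponents at a prime of good reduction -/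
theorem good_dvd (w : HeightOneSpectrum (𝓞 M)) (W : WeierstrassCurve M) (hW : W.Δ ≠ 0)
    (hg : GoodAt w W) {a c : ℤ} (ha : w.valuation M (W.c₄ ^ 3 / W.Δ) = WithZero.exp (-a))
    (hc : w.valuation M (W.c₄ ^ 3 / W.Δ - 1728) = WithZero.exp (-c)) :
    0 ≤ a ∧ 3 ∣ a ∧ 2 ∣ c := by
  obtain ⟨x, y, h1, h2, h3⟩ := good_j w W hW hg
  have hx0 : w.valuation M x ≠ 0 := by
    intro h
    rw [h2, h, zero_pow (by norm_num)] at ha
    exact WithZero.exp_ne_zero ha.symm
  have hy0 : w.valuation M y ≠ 0 := by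
    intro h
    rw [h3, h, zero_pow (by norm_num)] at hc
    exact WithZero.exp_ne_zero hc.symm
  obtain ⟨s, hs⟩ : ∃ s : ℤ, w.valuation M x = WithZero.exp s := ⟨_, (WithZero.exp_log hx0).symm⟩
  obtain ⟨u, hu⟩ : ∃ u : ℤ, w.valuation M y = WithZero.exp u := ⟨_, (WithZero.exp_log hy0).symm⟩
  rw [h2, hs, ← WithZero.exp_nsmul] at ha
  rw [h3, hu, ← WithZero.exp_nsmul] at hc
  have e1 := WithZero.exp_injective ha
  have e2 := WithZero.exp_injective hc
  simp only [nsmul_eq_mul] at e1 e2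
  push_cast at e1 e2
  have h4 : s ≤ 0 := by
    rw [hs, ← WithZero.exp_zero] at h1
    exact WithZero.exp_le_exp.1 h1
  refine ⟨by omega, by omega, by omega⟩

/-- a bad prime not dividing six contributes to the conductor -/
theorem bad_le (w : HeightOneSpectrum (𝓞 M)) (W : WeierstrassCurve M)
    (h6 : w.valuation M 6 = 1) (hb : ¬ GoodAt w W) : lN w ≤ mw w W + aw w W := by
  have hm := mw_nonneg w W
  have ha := aw_nonneg w W
  by_cases hs : SemiAt w W
  · have : mw w W = lN w := by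
      unfold mw
      exact if_pos ⟨hb, hs, h6⟩
    linarith
  · have : aw w W = lN w := by
      unfold aw
      exact if_pos ⟨hs, h6⟩
    linarith

/-- a crude bound -/
theorem disc_crude (w : HeightOneSpectrum (𝓞 M)) (W : WeierstrassCurve M) (hW : W.Δ ≠ 0) :
    (discExp w W : ℝ) * lN w ≤ Real.log (max (fv w (W.c₄ ^ 3 / W.Δ)) 1) + 10 * lN w +
      12 * (-Real.log (fv w 6)) := (disc_bound w W hW).1

end

end Pool.Agent.V7H38.FR
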