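import Mathlib
import Pool.Agent.V7H38.FR.Loc1

/-!
# Project FR, final part: one prime and one family
-/

set_option autoImplicit false

namespace Pool.Agent.V7H38.FR

open NumberField IsDedekindDomain Module Polynomial UniqueFactorizationMonoid
open Pool.Agent.N753.DR Pool.Agent.N751.FR
open Pool.Agent.H691R3 hiding muA mu
open Pool.Agent.W223.AK Pool.Agent.Y733.LS
open Pool.Agent.TH876.FH (GoodAt)
open Pool.Agent.Y733.FF

/-- a rational function of positive degree in lowest terms -/
structure Fam {K : Type} [Field K] (A B : K[X]) : Prop where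
  cop : IsCoprime A B
  ne : B ≠ 0
  deg : 1 ≤ max A.natDegree B.natDegree

section

variable {K : Type} [Field K]

theorem Fam.neA {A B : K[X]} (h : Fam A B) : A ≠ 0 := by
  rintro rfl
  have h1 : IsUnit B := isCoprime_zero_left.1 h.cop
  have h2 := natDegree_eq_zero_of_isUnit h1
  have h3 := h.deg
  rw [natDegree_zero, h2] at h3
  omega

theorem Fam.neC {A B : K[X]} (h : Fam A B) : A - 1728 * B ≠ 0 := by
  intro h0
  have h1 : A = 1728 * B := sub_eq_zero.1 h0
  have h2 : IsUnit B := by
    have h3 := h.cop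
    rw [h1] at h3
    exact h3.isUnit_of_dvd' (Dvd.intro_left _ rfl) dvd_rfl
  have h3 := natDegree_eq_zero_of_isUnit h2
  have h4 : A.natDegree = 0 := by
    rw [h1]
    have h5 : (1728 * B).natDegree ≤ (1728 : K[X]).natDegree + B.natDegree := natDegree_mul_le
    have h6 : (1728 : K[X]).natDegree = 0 := by
      have := natDegree_natCast (R := K) 1728
      exact_mod_cast this
    omega
  have h5 := h.deg
  omega

theorem Fam.neF {A B : K[X]} (h : Fam A B) : A * (A - 1728 * B) * B ≠ 0 :=
  mul_ne_zero (mul_ne_zero h.neA h.neC) h.ne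

theorem deg1728 (B : K[X]) : (1728 * B).natDegree ≤ B.natDegree := by
  have h5 : (1728 * B).natDegree ≤ (1728 : K[X]).natDegree + B.natDegree := natDegree_mul_le
  have h6 : (1728 : K[X]).natDegree = 0 := by
    have := natDegree_natCast (R := K) 1728
    exact_mod_cast this
  omega

open Classical in
theorem mem_badPl {A B : K[X]} (h : Fam A B) (P : K[X]) : P ∈ badPl A B ↔
    (Irreducible P ∧ P.Monic ∧ P ∣ A * (A - 1728 * B) * B) ∧
    (P ∣ B ∨ ¬ 3 ∣ multiplicity P A ∨ ¬ 2 ∣ multiplicity P (A - 1728 * B)) := by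
  unfold badPl
  rw [Finset.mem_filter, Multiset.mem_toFinset, Polynomial.mem_normalizedFactors_iff h.neF]

theorem mult_zero {P Q R : K[X]} (hP : Irreducible P) (hR : R ≠ 0) (hQ : P ∣ Q)
    (h : IsCoprime R Q) : multiplicity P R = 0 := by
  rw [multiplicity_eq_zero]
  intro h1
  exact hP.not_isUnit (h.isUnit_of_dvd' h1 hQ)

theorem copC {A B : K[X]} (h : IsCoprime A B) : IsCoprime (A - 1728 * B) B := by
  have h1 : A - 1728 * B = A + B * (-1728) := by ring
  rw [h1]
  exact IsCoprime.add_mul_left_left h _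

end

section

variable {K : Type} [Field K] [NumberField K]

/-- one integer for finitely many statements -/
theorem fin_n {ι : Type} (T : Finset ι)
    (Q : ι → (M : Type) → [Field M] → [NumberField M] → [Algebra K M] →
      HeightOneSpectrum (𝓞 M) → Prop)
    (h : ∀ i ∈ T, ∃ n : ℕ, n ≠ 0 ∧ ∀ (M : Type) [Field M] [NumberField M] [Algebra K M]
      (w : HeightOneSpectrum (𝓞 M)), (n : 𝓞 M) ∉ w.asIdeal → Q i M w) :
    ∃ n : ℕ, n ≠ 0 ∧ ∀ (M : Type) [Field M] [NumberField M] [Algebra K M]
      (w : HeightOneSpectrum (𝓞 M)), (n : 𝓞 M) ∉ w.asIdeal → ∀ i ∈ T, Q i M w := by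
  classical
  induction T using Finset.induction_on with
  | empty => exact ⟨1, one_ne_zero, fun M _ _ _ w _ i hi => absurd hi (Finset.notMem_empty i)⟩
  | insert a T ha ih =>
    obtain ⟨n1, hn1, h1⟩ := ih fun i hi => h i (Finset.mem_insert_of_mem hi)
    obtain ⟨n2, hn2, h2⟩ := h a (Finset.mem_insert_self _ _)
    refine ⟨n1 * n2, mul_ne_zero hn1 hn2, ?_⟩
    intro M _ _ _ w hw i hi
    have k1 : (n1 : 𝓞 M) ∉ w.asIdeal := fun h => hw (by
      push_cast
      exact Ideal.mul_mem_right _ _ h)
    have k2 : (n2 : 𝓞 M) ∉ w.asIdeal := fun h => hw (by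
      push_cast
      exact Ideal.mul_mem_left _ _ h)
    rcases Finset.mem_insert.1 hi with rfl | hi
    · exact h2 M w k2
    · exact h1 M w k1 i hi

theorem six_unit {M : Type} [Field M] [NumberField M] (w : HeightOneSpectrum (𝓞 M))
    (h : ((6 : ℕ) : 𝓞 M) ∉ w.asIdeal) : w.valuation M 6 = 1 := by
  have h1 : w.valuation M (algebraMap (𝓞 M) M ((6 : ℕ) : 𝓞 M)) ≤ 1 := w.valuation_le_one _
  have h2 : ¬ w.valuation M (algebraMap (𝓞 M) M ((6 : ℕ) : 𝓞 M)) < 1 := by
    rw [HeightOneSpectrum.valuation_lt_one_iff_mem]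
    exact h
  have h3 : algebraMap (𝓞 M) M ((6 : ℕ) : 𝓞 M) = 6 := by
    rw [map_natCast]
    norm_num
  rw [h3] at h1 h2
  exact le_antisymm h1 (not_lt.1 h2)

open Classical in
/-- the additional term of the discriminant -/
noncomputable def ex (A B : K[X]) {M : Type} [Field M] [NumberField M] [Algebra K M] (x : M)
    (w : HeightOneSpectrum (𝓞 M)) : ℝ :=
  ∑ P ∈ badPl A B, (if w.valuation M x ≤ 1 ∧ w.valuation M (aeval x P) = WithZero.exp (-1 : ℤ)
      then (mu A B P : ℝ) * lN w
      else if w.valuation M x ≤ 1 ∧ w.valuation M (aeval x P) < 1 then 4 * lN w else 0) +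
    (if InfBad A B ∧ w.valuation M x = WithZero.exp (1 : ℤ) then (muInf A B : ℝ) * lN w
      else if InfBad A B ∧ 1 < w.valuation M x then 4 * lN w else 0)

section

variable (A B : K[X]) {M : Type} [Field M] [NumberField M] [Algebra K M] (x : M)
  (w : HeightOneSpectrum (𝓞 M))

theorem ex_term_nonneg (P : K[X]) : 0 ≤ (open Classical in
    if w.valuation M x ≤ 1 ∧ w.valuation M (aeval x P) = WithZero.exp (-1 : ℤ)
      then (mu A B P : ℝ) * lN w
      else if w.valuation M x ≤ 1 ∧ w.valuation M (aeval x P) < 1 then 4 * lN w else 0) := by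
  have := lN_pos w
  split_ifs <;> positivity

theorem ex_inf_nonneg : 0 ≤ (open Classical in
    if InfBad A B ∧ w.valuation M x = WithZero.exp (1 : ℤ) then (muInf A B : ℝ) * lN w
      else if InfBad A B ∧ 1 < w.valuation M x then 4 * lN w else 0) := by
  have := lN_pos w
  split_ifs <;> positivity

theorem ex_nonneg : 0 ≤ ex A B x w := by
  classical
  unfold ex
  exact add_nonneg (Finset.sum_nonneg fun P _ => ex_term_nonneg A B x w P)
    (ex_inf_nonneg A B x w)

theorem ex_ge {P : K[X]} (hP : P ∈ badPl A B) : (open Classical in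
    if w.valuation M x ≤ 1 ∧ w.valuation M (aeval x P) = WithZero.exp (-1 : ℤ)
      then (mu A B P : ℝ) * lN w
      else if w.valuation M x ≤ 1 ∧ w.valuation M (aeval x P) < 1 then 4 * lN w else 0) ≤
    ex A B x w := by
  classical
  unfold ex
  have h1 := Finset.single_le_sum (fun P _ => ex_term_nonneg A B x w P) hP
  have h2 := ex_inf_nonneg A B x w
  linarith

theorem ex_ge_inf : (open Classical in
    if InfBad A B ∧ w.valuation M x = WithZero.exp (1 : ℤ) then (muInf A B : ℝ) * lN w
      else if InfBad A B ∧ 1 < w.valuation M x then 4 * lN w else 0) ≤ ex A B x w := by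
  classical
  unfold ex
  have h1 := Finset.sum_nonneg fun P (_ : P ∈ badPl A B) => ex_term_nonneg A B x w P
  linarith

end

end

end Pool.Agent.V7H38.FR
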