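import Mathlib
import Pool.Agent.V7H38.FR.Loc2

/-!
# Project FR, final part: the local inequality
-/

set_option autoImplicit false

namespace Pool.Agent.V7H38.FR

open NumberField IsDedekindDomain Module Polynomial UniqueFactorizationMonoid
open Pool.Agent.N753.DR Pool.Agent.N751.FR
open Pool.Agent.H691R3 hiding muA mu
open Pool.Agent.W223.AK Pool.Agent.Y733.LS
open Pool.Agent.TH876.FH (GoodAt)
open Pool.Agent.Y733.FF

section

variable {K : Type} [Field K] [NumberField K]

/-- two statements -/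
theorem and_n {Q1 Q2 : (M : Type) → [Field M] → [NumberField M] → [Algebra K M] →
      HeightOneSpectrum (𝓞 M) → Prop}
    (h1 : ∃ n : ℕ, n ≠ 0 ∧ ∀ (M : Type) [Field M] [NumberField M] [Algebra K M]
      (w : HeightOneSpectrum (𝓞 M)), (n : 𝓞 M) ∉ w.asIdeal → Q1 M w)
    (h2 : ∃ n : ℕ, n ≠ 0 ∧ ∀ (M : Type) [Field M] [NumberField M] [Algebra K M]
      (w : HeightOneSpectrum (𝓞 M)), (n : 𝓞 M) ∉ w.asIdeal → Q2 M w) :
    ∃ n : ℕ, n ≠ 0 ∧ ∀ (M : Type) [Field M] [NumberField M] [Algebra K M]
      (w : HeightOneSpectrum (𝓞 M)), (n : 𝓞 M) ∉ w.asIdeal → Q1 M w ∧ Q2 M w := by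
  obtain ⟨n1, hn1, h1⟩ := h1
  obtain ⟨n2, hn2, h2⟩ := h2
  refine ⟨n1 * n2, mul_ne_zero hn1 hn2, ?_⟩
  intro M _ _ _ w hw
  have k1 : (n1 : 𝓞 M) ∉ w.asIdeal := fun h => hw (by
    push_cast
    exact Ideal.mul_mem_right _ _ h)
  have k2 : (n2 : 𝓞 M) ∉ w.asIdeal := fun h => hw (by
    push_cast
    exact Ideal.mul_mem_left _ _ h)
  exact ⟨h1 M w k1, h2 M w k2⟩

/-- the good primes of the family -/
def GoodPr (A B : K[X]) (M : Type) [Field M] [NumberField M] [Algebra K M]
    (w : HeightOneSpectrum (𝓞 M)) : Prop :=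
  w.valuation M 6 = 1 ∧
  (∀ x : M, w.valuation M x ≤ 1 → ∀ P : K[X], Irreducible P → P.Monic →
    P ∣ A * (A - 1728 * B) * B → w.valuation M (aeval x P) < 1 →
    w.valuation M (aeval x A) = w.valuation M (aeval x P) ^ multiplicity P A ∧
    w.valuation M (aeval x B) = w.valuation M (aeval x P) ^ multiplicity P B ∧
    w.valuation M (aeval x (A - 1728 * B)) =
      w.valuation M (aeval x P) ^ multiplicity P (A - 1728 * B)) ∧
  (∀ x : M, w.valuation M x ≤ 1 → (∀ P : K[X], P.Monic → Irreducible P →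
    P ∣ A * (A - 1728 * B) * B → ¬ w.valuation M (aeval x P) < 1) →
    w.valuation M (aeval x A) = 1 ∧ w.valuation M (aeval x B) = 1 ∧
    w.valuation M (aeval x (A - 1728 * B)) = 1) ∧
  (∀ x : M, 1 < w.valuation M x →
    w.valuation M (aeval x A) = w.valuation M x ^ A.natDegree ∧
    w.valuation M (aeval x B) = w.valuation M x ^ B.natDegree ∧
    w.valuation M (aeval x (A - 1728 * B)) = w.valuation M x ^ (A - 1728 * B).natDegree)

theorem goodPr {A B : K[X]} (h : Fam A B) : ∃ n : ℕ, n ≠ 0 ∧
    ∀ (M : Type) [Field M] [NumberField M] [Algebra K M] (w : HeightOneSpectrum (𝓞 M)),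
      (n : 𝓞 M) ∉ w.asIdeal → GoodPr A B M w := by
  classical
  have h6 : ∃ n : ℕ, n ≠ 0 ∧ ∀ (M : Type) [Field M] [NumberField M] [Algebra K M]
      (w : HeightOneSpectrum (𝓞 M)), (n : 𝓞 M) ∉ w.asIdeal → w.valuation M 6 = 1 :=
    ⟨6, by norm_num, fun M _ _ _ w hw => six_unit w hw⟩
  have hP := fin_n (K := K) (normalizedFactors (A * (A - 1728 * B) * B)).toFinset
    (fun P M _ _ _ w => ∀ x : M, w.valuation M x ≤ 1 → w.valuation M (aeval x P) < 1 →
    w.valuation M (aeval x A) = w.valuation M (aeval x P) ^ multiplicity P A ∧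
    w.valuation M (aeval x B) = w.valuation M (aeval x P) ^ multiplicity P B ∧
    w.valuation M (aeval x (A - 1728 * B)) =
      w.valuation M (aeval x P) ^ multiplicity P (A - 1728 * B)) (by
    intro P hP
    rw [Multiset.mem_toFinset, Polynomial.mem_normalizedFactors_iff h.neF] at hP
    obtain ⟨n1, hn1, h1⟩ := val_pow P A hP.1 h.neA
    obtain ⟨n2, hn2, h2⟩ := val_pow P B hP.1 h.ne
    obtain ⟨n3, hn3, h3⟩ := val_pow P _ hP.1 h.neC
    obtain ⟨n, hn, hh⟩ := and_n (K := K) (Q1 := fun M _ _ _ w => ∀ x : M,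
      w.valuation M x ≤ 1 → w.valuation M (aeval x P) < 1 →
      w.valuation M (aeval x A) = w.valuation M (aeval x P) ^ multiplicity P A)
      (Q2 := fun M _ _ _ w => (∀ x : M,
      w.valuation M x ≤ 1 → w.valuation M (aeval x P) < 1 →
      w.valuation M (aeval x B) = w.valuation M (aeval x P) ^ multiplicity P B) ∧
      (∀ x : M, w.valuation M x ≤ 1 → w.valuation M (aeval x P) < 1 →
      w.valuation M (aeval x (A - 1728 * B)) =
        w.valuation M (aeval x P) ^ multiplicity P (A - 1728 * B)))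
      ⟨n1, hn1, fun M _ _ _ w hw x => h1 M w x hw⟩
      (and_n (K := K) ⟨n2, hn2, fun M _ _ _ w hw x => h2 M w x hw⟩
        ⟨n3, hn3, fun M _ _ _ w hw x => h3 M w x hw⟩)
    exact ⟨n, hn, fun M _ _ _ w hw x g1 g2 => ⟨(hh M w hw).1 x g1 g2, (hh M w hw).2.1 x g1 g2,
      (hh M w hw).2.2 x g1 g2⟩⟩)
  have hU : ∃ n : ℕ, n ≠ 0 ∧ ∀ (M : Type) [Field M] [NumberField M] [Algebra K M]
      (w : HeightOneSpectrum (𝓞 M)), (n : 𝓞 M) ∉ w.asIdeal →
      (∀ x : M, w.valuation M x ≤ 1 → (∀ P : K[X], P.Monic → Irreducible P →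
        P ∣ A * (A - 1728 * B) * B → ¬ w.valuation M (aeval x P) < 1) →
        w.valuation M (aeval x A) = 1) ∧
      ((∀ x : M, w.valuation M x ≤ 1 → (∀ P : K[X], P.Monic → Irreducible P →
        P ∣ A * (A - 1728 * B) * B → ¬ w.valuation M (aeval x P) < 1) →
        w.valuation M (aeval x B) = 1) ∧
      (∀ x : M, w.valuation M x ≤ 1 → (∀ P : K[X], P.Monic → Irreducible P →
        P ∣ A * (A - 1728 * B) * B → ¬ w.valuation M (aeval x P) < 1) →
        w.valuation M (aeval x (A - 1728 * B)) = 1)) := by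
    obtain ⟨n1, hn1, h1⟩ := val_unit A h.neA
    obtain ⟨n2, hn2, h2⟩ := val_unit B h.ne
    obtain ⟨n3, hn3, h3⟩ := val_unit _ h.neC
    exact and_n (K := K)
      ⟨n1, hn1, fun M _ _ _ w hw x g1 g2 => h1 M w x hw g1 fun P g3 g4 g5 =>
        g2 P g3 g4 ((g5.mul_right _).mul_right _)⟩
      (and_n (K := K) ⟨n2, hn2, fun M _ _ _ w hw x g1 g2 => h2 M w x hw g1 fun P g3 g4 g5 =>
        g2 P g3 g4 (g5.mul_left _)⟩
      ⟨n3, hn3, fun M _ _ _ w hw x g1 g2 => h3 M w x hw g1 fun P g3 g4 g5 =>
        g2 P g3 g4 ((g5.mul_left _).mul_right _)⟩)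
  have hI : ∃ n : ℕ, n ≠ 0 ∧ ∀ (M : Type) [Field M] [NumberField M] [Algebra K M]
      (w : HeightOneSpectrum (𝓞 M)), (n : 𝓞 M) ∉ w.asIdeal →
      (∀ x : M, 1 < w.valuation M x →
        w.valuation M (aeval x A) = w.valuation M x ^ A.natDegree) ∧
      ((∀ x : M, 1 < w.valuation M x →
        w.valuation M (aeval x B) = w.valuation M x ^ B.natDegree) ∧
      (∀ x : M, 1 < w.valuation M x →
        w.valuation M (aeval x (A - 1728 * B)) =
          w.valuation M x ^ (A - 1728 * B).natDegree)) := by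
    obtain ⟨n1, hn1, h1⟩ := val_inf A h.neA
    obtain ⟨n2, hn2, h2⟩ := val_inf B h.ne
    obtain ⟨n3, hn3, h3⟩ := val_inf _ h.neC
    exact and_n (K := K) ⟨n1, hn1, fun M _ _ _ w hw x => h1 M w x hw⟩
      (and_n (K := K) ⟨n2, hn2, fun M _ _ _ w hw x => h2 M w x hw⟩
        ⟨n3, hn3, fun M _ _ _ w hw x => h3 M w x hw⟩)
  obtain ⟨n, hn, hh⟩ := and_n (K := K) (and_n (K := K) h6 hP) (and_n (K := K) hU hI)
  refine ⟨n, hn, ?_⟩
  intro M _ _ _ w hw
  obtain ⟨⟨g6, gP⟩, gU, gI⟩ := hh M w hw
  refine ⟨g6, ?_, ?_, ?_⟩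
  · intro x hx P h1 h2 h3 h4
    refine gP P ?_ x hx h4
    rw [Multiset.mem_toFinset, Polynomial.mem_normalizedFactors_iff h.neF]
    exact ⟨h1, h2, h3⟩
  · intro x hx hP
    exact ⟨gU.1 x hx hP, gU.2.1 x hx hP, gU.2.2 x hx hP⟩
  · intro x hx
    exact ⟨gI.1 x hx, gI.2.1 x hx, gI.2.2 x hx⟩

end

section

variable {K : Type} [Field K] [NumberField K] {M : Type} [Field M] [NumberField M] [Algebra K M]

/-- `W` is a curve with invariant `A x / B x`, not equal to `0` or `1728` -/
structure Cur (A B : K[X]) (x : M) (W : WeierstrassCurve M) : Prop where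
  disc : W.Δ ≠ 0
  inv : W.c₄ ^ 3 / W.Δ = aeval x A / aeval x B
  neA : aeval x A ≠ 0
  neB : aeval x B ≠ 0
  neC : aeval x (A - 1728 * B) ≠ 0

theorem Cur.inv' {A B : K[X]} {x : M} {W : WeierstrassCurve M} (h : Cur A B x W) :
    W.c₄ ^ 3 / W.Δ - 1728 = aeval x (A - 1728 * B) / aeval x B := by
  rw [h.inv, map_sub, map_mul]
  have h1 : aeval x (1728 : K[X]) = (1728 : M) := by
    have := map_natCast (aeval (R := K) x) 1728
    exact_mod_cast this
  rw [h1]
  have := h.neB
  field_simp

theorem exp_of {w : HeightOneSpectrum (𝓞 M)} {y : M} (h0 : y ≠ 0) (h1 : w.valuation M y < 1) :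
    ∃ m : ℕ, 1 ≤ m ∧ w.valuation M y = WithZero.exp (-(m : ℤ)) := by
  obtain ⟨m, hm⟩ := val_exp w h0 h1.le
  refine ⟨m, ?_, hm⟩
  rw [hm, ← WithZero.exp_zero, WithZero.exp_lt_exp] at h1
  omega

theorem exp_of' {w : HeightOneSpectrum (𝓞 M)} {y : M} (h1 : 1 < w.valuation M y) :
    ∃ m : ℕ, 1 ≤ m ∧ w.valuation M y = WithZero.exp (m : ℤ) := by
  have h0 : w.valuation M y ≠ 0 := (lt_trans zero_lt_one h1).ne'
  obtain ⟨s, hs⟩ : ∃ s : ℤ, w.valuation M y = WithZero.exp s := ⟨_, (WithZero.exp_log h0).symm⟩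
  rw [hs, ← WithZero.exp_zero, WithZero.exp_lt_exp] at h1
  obtain ⟨m, rfl⟩ := Int.eq_ofNat_of_zero_le h1.le
  refine ⟨m, by omega, hs⟩

/-- **the local inequality for the discriminant** -/
theorem loc_disc {A B : K[X]} (h : Fam A B) {x : M} {W : WeierstrassCurve M} (hW : Cur A B x W)
    {w : HeightOneSpectrum (𝓞 M)} (hw : GoodPr A B M w) :
    (discExp w W : ℝ) * lN w ≤ Real.log (max (fv w (W.c₄ ^ 3 / W.Δ)) 1) + 6 * aw w W +
      ex A B x w := by
  classical
  obtain ⟨g6, gP, gU, gI⟩ := hw
  have hex := ex_nonneg A B x w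
  have hl := lN_pos w
  have fin : ∀ a c : ℕ, w.valuation M (W.c₄ ^ 3 / W.Δ) = WithZero.exp (-(a : ℤ)) →
      w.valuation M (W.c₄ ^ 3 / W.Δ - 1728) = WithZero.exp (-(c : ℤ)) →
      (muA a c : ℝ) * lN w ≤ ex A B x w →
      (discExp w W : ℝ) * lN w ≤ Real.log (max (fv w (W.c₄ ^ 3 / W.Δ)) 1) + 6 * aw w W +
        ex A B x w := by
    intro a c h1 h2 h3
    have := disc_fin w W hW.disc g6 a c h1 h2
    linarith
  have pole : 1 < w.valuation M (W.c₄ ^ 3 / W.Δ) →
      (discExp w W : ℝ) * lN w ≤ Real.log (max (fv w (W.c₄ ^ 3 / W.Δ)) 1) + 6 * aw w W +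
        ex A B x w := by
    intro h1
    have := disc_pole w W hW.disc g6 h1
    linarith
  have e1 := hW.inv
  have e2 := hW.inv'
  rcases le_or_gt (w.valuation M x) 1 with hx | hx
  · by_cases hz : ∃ P : K[X], P.Monic ∧ Irreducible P ∧ P ∣ A * (A - 1728 * B) * B ∧
      w.valuation M (aeval x P) < 1
    · obtain ⟨P, hP1, hP2, hP3, hP4⟩ := hz
      obtain ⟨vA, vB, vC⟩ := gP x hx P hP2 hP1 hP3 hP4
      have hPx : aeval x P ≠ 0 := by
        intro h0
        obtain ⟨Q, hQ⟩ := hP3
        have h1 := congrArg (aeval x) hQ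
        rw [map_mul, map_mul, map_mul, h0, zero_mul] at h1
        exact mul_ne_zero (mul_ne_zero hW.neA hW.neC) hW.neB h1
      obtain ⟨m, hm, em⟩ := exp_of hPx hP4
      rw [em, ← WithZero.exp_nsmul] at vA vB vC
      by_cases hPB : P ∣ B
      · apply pole
        have a0 : multiplicity P A = 0 := mult_zero hP2 h.neA hPB h.cop
        have b0 : 1 ≤ multiplicity P B := by
          by_contra hc
          have : multiplicity P B = 0 := by omega
          rw [multiplicity_eq_zero] at this
          exact this hPB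
        rw [e1, map_div₀, vA, vB, ← WithZero.exp_sub, a0, ← WithZero.exp_zero,
          WithZero.exp_lt_exp]
        simp only [nsmul_eq_mul]
        push_cast
        have : (0 : ℤ) < (multiplicity P B : ℤ) * m := by positivity
        linarith
      · have b0 : multiplicity P B = 0 := multiplicity_eq_zero.2 hPB
        rw [b0, zero_smul, WithZero.exp_zero] at vB
        refine fin (m * multiplicity P A) (m * multiplicity P (A - 1728 * B)) ?_ ?_ ?_
        · rw [e1, map_div₀, vA, vB, div_one]
          congr 1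
          simp only [nsmul_eq_mul]
          push_cast
          ring
        · rw [e2, map_div₀, vC, vB, div_one]
          congr 1
          simp only [nsmul_eq_mul]
          push_cast
          ring
        · by_cases hbad : P ∈ badPl A B
          · have h1 := ex_ge A B x w hbad
            by_cases hm1 : m = 1
            · rw [if_pos ⟨hx, by rw [em, hm1]; rfl⟩] at h1
              have h2 : mu A B P = muA (multiplicity P A) (multiplicity P (A - 1728 * B)) := by
                unfold mu
                rw [if_neg hPB]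
              rw [hm1, one_mul, one_mul, ← h2]
              exact h1
            · rw [if_neg, if_pos ⟨hx, hP4⟩] at h1
              · refine le_trans (mul_le_mul_of_nonneg_right ?_ hl.le) h1
                exact_mod_cast muA_le _ _
              · rintro ⟨_, h2⟩
                rw [em] at h2
                have := WithZero.exp_injective h2
                omega
          · rw [mem_badPl h] at hbad
            push Not at hbad
            obtain ⟨_, h3, h4⟩ := hbad ⟨hP2, hP1, hP3⟩
            rw [muA_zero (h3.mul_left _) (h4.mul_left _)]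
            simpa using hex
    · push Not at hz
      obtain ⟨vA, vB, vC⟩ := gU x hx fun P h1 h2 h3 => not_lt.2 (hz P h1 h2 h3)
      refine fin 0 0 ?_ ?_ ?_
      · rw [e1, map_div₀, vA, vB, div_one]
        simp
      · rw [e2, map_div₀, vC, vB, div_one]
        simp
      · rw [muA_zero (dvd_zero _) (dvd_zero _)]
        simpa using hex
  · obtain ⟨vA, vB, vC⟩ := gI x hx
    obtain ⟨m, hm, em⟩ := exp_of' hx
    rw [em, ← WithZero.exp_nsmul] at vA vB vC
    rcases lt_or_ge B.natDegree A.natDegree with hd | hd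
    · apply pole
      rw [e1, map_div₀, vA, vB, ← WithZero.exp_sub, ← WithZero.exp_zero, WithZero.exp_lt_exp]
      simp only [nsmul_eq_mul]
      have h1 : (0 : ℤ) < ((A.natDegree : ℤ) - B.natDegree) * m := by
        apply mul_pos
        · omega
        · omega
      linarith
    · have hdC : (A - 1728 * B).natDegree ≤ B.natDegree := by
        refine (natDegree_sub_le _ _).trans (max_le hd (deg1728 B))
      refine fin (m * (B.natDegree - A.natDegree))
        (m * (B.natDegree - (A - 1728 * B).natDegree)) ?_ ?_ ?_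
      · rw [e1, map_div₀, vA, vB, ← WithZero.exp_sub]
        congr 1
        simp only [nsmul_eq_mul]
        push_cast [Nat.cast_sub hd]
        ring
      · rw [e2, map_div₀, vC, vB, ← WithZero.exp_sub]
        congr 1
        simp only [nsmul_eq_mul]
        push_cast [Nat.cast_sub hdC]
        ring
      · by_cases hbad : InfBad A B
        · have h1 := ex_ge_inf A B x w
          by_cases hm1 : m = 1
          · rw [if_pos ⟨hbad, by rw [em, hm1]; rfl⟩] at h1
            have h2 : muInf A B = muA (B.natDegree - A.natDegree)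
                (B.natDegree - (A - 1728 * B).natDegree) := by
              unfold muInf
              rw [if_neg (by omega)]
            rw [hm1, one_mul, one_mul, ← h2]
            exact h1
          · rw [if_neg, if_pos ⟨hbad, hx⟩] at h1
            · refine le_trans (mul_le_mul_of_nonneg_right ?_ hl.le) h1
              exact_mod_cast muA_le _ _
            · rintro ⟨_, h2⟩
              rw [em] at h2
              have := WithZero.exp_injective h2
              omega
        · unfold InfBad at hbad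
          push Not at hbad
          obtain ⟨_, h3, h4⟩ := hbad
          rw [muA_zero (h3.mul_left _) (h4.mul_left _)]
          simpa using hex

/-- **bad reduction** at the simple zeros -/
theorem loc_bad {A B : K[X]} (h : Fam A B) {x : M} {W : WeierstrassCurve M} (hW : Cur A B x W)
    {w : HeightOneSpectrum (𝓞 M)} (hw : GoodPr A B M w) :
    (∀ P ∈ badPl A B, w.valuation M x ≤ 1 → w.valuation M (aeval x P) = WithZero.exp (-1 : ℤ) →
      ¬ GoodAt w W) ∧ (InfBad A B → w.valuation M x = WithZero.exp (1 : ℤ) → ¬ GoodAt w W) := by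
  classical
  obtain ⟨g6, gP, gU, gI⟩ := hw
  have e1 := hW.inv
  have e2 := hW.inv'
  constructor
  · intro P hP hx hv hg
    rw [mem_badPl h] at hP
    obtain ⟨⟨hP2, hP1, hP3⟩, hbad⟩ := hP
    have hlt : w.valuation M (aeval x P) < 1 := by
      rw [hv, ← WithZero.exp_zero, WithZero.exp_lt_exp]
      norm_num
    obtain ⟨vA, vB, vC⟩ := gP x hx P hP2 hP1 hP3 hlt
    rw [hv, ← WithZero.exp_nsmul] at vA vB vC
    have ha : w.valuation M (W.c₄ ^ 3 / W.Δ) =
        WithZero.exp (-((multiplicity P A : ℤ) - multiplicity P B)) := by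
      rw [e1, map_div₀, vA, vB, ← WithZero.exp_sub]
      congr 1
      simp only [nsmul_eq_mul]
      ring
    have hc : w.valuation M (W.c₄ ^ 3 / W.Δ - 1728) =
        WithZero.exp (-((multiplicity P (A - 1728 * B) : ℤ) - multiplicity P B)) := by
      rw [e2, map_div₀, vC, vB, ← WithZero.exp_sub]
      congr 1
      simp only [nsmul_eq_mul]
      ring
    obtain ⟨h1, h2, h3⟩ := good_dvd w W hW.disc hg ha hc
    by_cases hPB : P ∣ B
    · have a0 : multiplicity P A = 0 := mult_zero hP2 h.neA hPB h.cop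
      have b0 : 1 ≤ multiplicity P B := by
        by_contra hc
        have : multiplicity P B = 0 := by omega
        rw [multiplicity_eq_zero] at this
        exact this hPB
      omega
    · have b0 : multiplicity P B = 0 := multiplicity_eq_zero.2 hPB
      rw [b0] at h2 h3
      rcases hbad with hbad | hbad | hbad
      · exact hPB hbad
      · apply hbad
        omega
      · apply hbad
        omega
  · intro hbad hv hg
    have hx : 1 < w.valuation M x := by
      rw [hv, ← WithZero.exp_zero, WithZero.exp_lt_exp]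
      norm_num
    obtain ⟨vA, vB, vC⟩ := gI x hx
    rw [hv, ← WithZero.exp_nsmul] at vA vB vC
    have ha : w.valuation M (W.c₄ ^ 3 / W.Δ) =
        WithZero.exp (-((B.natDegree : ℤ) - A.natDegree)) := by
      rw [e1, map_div₀, vA, vB, ← WithZero.exp_sub]
      congr 1
      simp only [nsmul_eq_mul]
      ring
    have hc : w.valuation M (W.c₄ ^ 3 / W.Δ - 1728) =
        WithZero.exp (-((B.natDegree : ℤ) - (A - 1728 * B).natDegree)) := by
      rw [e2, map_div₀, vC, vB, ← WithZero.exp_sub]
      congr 1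
      simp only [nsmul_eq_mul]
      ring
    obtain ⟨h1, h2, h3⟩ := good_dvd w W hW.disc hg ha hc
    have hd : A.natDegree ≤ B.natDegree := by omega
    have hdC : (A - 1728 * B).natDegree ≤ B.natDegree :=
      (natDegree_sub_le _ _).trans (max_le hd (deg1728 B))
    rcases hbad with hbad | hbad | hbad
    · omega
    · apply hbad
      omega
    · apply hbad
      omega

end

end Pool.Agent.V7H38.FR
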