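import Mathlib
import Pool.Agent.V7H38.FR.Loc3
import Pool.Agent.N490.FR.Ht
import Pool.Agent.N401.FR.Rh3

/-!
# Project FR, final part: the sums
-/

set_option autoImplicit false

namespace Pool.Agent.V7H38.FR

open NumberField IsDedekindDomain Module Polynomial UniqueFactorizationMonoid
open Pool.Agent.N753.DR Pool.Agent.N751.FR
open Pool.Agent.H691R3 hiding muA mu
open Pool.Agent.W223.AK Pool.Agent.Y733.LS
open Pool.Agent.TH876.FH (GoodAt IsPeriod arch Hj_height)
open Pool.Agent.Y733.FF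
open Pool.Agent.N707.DRVkG (Ex)

section

variable {M : Type} [Field M] [NumberField M]

theorem sum_le_finsum {f : HeightOneSpectrum (𝓞 M) → ℝ} (h0 : ∀ w, 0 ≤ f w)
    (hf : (Function.support f).Finite) (T : Finset (HeightOneSpectrum (𝓞 M))) :
    ∑ w ∈ T, f w ≤ ∑ᶠ w, f w := by
  classical
  rw [finsum_eq_sum_of_support_subset (s := hf.toFinset ∪ T) f (by
    intro v hv
    rw [Finset.coe_union]
    left
    rwa [Set.Finite.coe_toFinset])]
  exact Finset.sum_le_sum_of_subset_of_nonneg Finset.subset_union_right fun w _ _ => h0 w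

/-- the sum over the primes dividing an integer -/
theorem sum_dvd {n : ℕ} (hn : n ≠ 0) (T : Finset (HeightOneSpectrum (𝓞 M)))
    (hT : ∀ w ∈ T, (n : 𝓞 M) ∈ w.asIdeal) : ∑ w ∈ T, lN w ≤ finrank ℚ M * Real.log n := by
  have hn0 : (n : M) ≠ 0 := Nat.cast_ne_zero.2 hn
  have h1 := fin_nat (K := M) hn
  have hle : ∀ w : Pr M, fv w (n : M) ≤ 1 := fun w => by
    rw [fv_le_one_iff]
    have := w.valuation_le_one (K := M) ((n : ℕ) : 𝓞 M)
    simpa using this
  have h2 : ∑ w ∈ T, lN w ≤ ∑ w ∈ T, -Real.log (fv w (n : M)) := by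
    refine Finset.sum_le_sum fun w hw => ?_
    obtain ⟨k, hk⟩ := fv_zpow w (x := (n : M)) hn0
    change fv w (n : M) = (Nv w) ^ k at hk
    have hlt : fv w (n : M) < 1 := by
      rcases lt_or_eq_of_le (hle w) with h | h
      · exact h
      · exfalso
        have h3 := (fv_one_iff w).1 h
        have h4 : w.valuation M (algebraMap (𝓞 M) M (n : 𝓞 M)) < 1 := by
          rw [HeightOneSpectrum.valuation_lt_one_iff_mem]
          exact hT w hw
        rw [map_natCast, h3] at h4
        exact lt_irrefl _ h4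
    have hl := lN_pos w
    have hk0 : k < 0 := by
      by_contra hc
      rw [not_lt] at hc
      have h3 : 1 ≤ fv w (n : M) := by
        rw [hk]
        exact one_le_zpow₀ (Nv_one_lt w).le hc
      linarith
    rw [hk, Real.log_zpow, ← lN_eq]
    have hk2 : (k : ℝ) ≤ -1 := by exact_mod_cast (by omega : k ≤ -1)
    nlinarith
  have hs : (Function.support fun w : Pr M => -Real.log (fv w (n : M))).Finite := by
    have := Fs_log (K := M) (z := (n : M)) hn0
    refine Set.Finite.subset this ?_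
    intro w hw
    rw [Function.mem_support] at hw ⊢
    intro h
    apply hw
    have h' : Real.log (fv w (n : M)) = 0 := h
    rw [h', neg_zero]
  have h3 := sum_le_finsum (fun w => neg_nonneg.2
    (Real.log_nonpos ((fv w).nonneg _) (hle w))) hs T
  have h4 : ∑ᶠ w : Pr M, -Real.log (fv w (n : M)) = finrank ℚ M * Real.log n := by
    rw [finsum_neg_distrib, h1, neg_neg]
  linarith

end

section

variable {K : Type} [Field K] [NumberField K]

theorem badPl_spec {A B : K[X]} (h : Fam A B) {r : ℕ}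
    (hdeg : ∀ P ∈ badPl A B, P.natDegree ≤ 2 * r + 1) :
    ∀ P ∈ badPl A B, P.Monic ∧ Irreducible P ∧ P.natDegree ≤ 2 * r + 1 := by
  intro P hP
  have h1 := (mem_badPl h P).1 hP
  exact ⟨h1.1.2.1, h1.1.1, hdeg P hP⟩

/-- **the conductor is large** -/
theorem low {r : ℕ} (hr : 1 ≤ r) {E : Set K[X]} (hE : IsExc K r E) {A B : K[X]} (h : Fam A B)
    (hdeg : ∀ P ∈ badPl A B, P.natDegree ≤ 2 * r + 1) {κ : ℝ} (hκ : 0 < κ) :
    ∃ C : ℝ, 0 ≤ C ∧ ∀ (M : Type) [Field M] [NumberField M] [Algebra K M] (x : M)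
      (W : WeierstrassCurve M), finrank K M = r → (minpoly K x).natDegree = r →
      minpoly K x ∉ Ex E → Cur A B x W →
      (gam A B - κ) * Height.logHeight₁ x ≤ ∑ᶠ w : Pr M, mw w W + ∑ᶠ w : Pr M, aw w W + C := by
  classical
  obtain ⟨n, hn, hgood⟩ := goodPr h
  obtain ⟨C1, hC1⟩ := Pool.Agent.N400.FRSim.t0 K r hr E hE (badPl A B) (badPl_spec h hdeg) {n}
    (κ / 2) (by positivity)
  obtain ⟨C2, hC2⟩ := Pool.Agent.N400.FRSim.t0 K r hr E hE {X} (by
    intro P hP
    rw [Finset.mem_singleton] at hP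
    subst hP
    refine ⟨monic_X, irreducible_X, ?_⟩
    rw [natDegree_X]
    omega) {n} (κ / 2) (by positivity)
  refine ⟨|C1| + |C2|, by positivity, ?_⟩
  intro M _ _ _ x W hM hx hxE hW
  have hh0 : 0 ≤ Height.logHeight₁ x := Height.zero_le_logHeight₁ x
  have hfin := bad_fin W hW.disc
  set W1 := hfin.toFinset.filter fun w => w.valuation M 6 = 1 ∧ w.valuation M x ≤ 1 with hW1
  set W2 := hfin.toFinset.filter fun w => w.valuation M 6 = 1 ∧ 1 < w.valuation M x with hW2
  have hgp : ∀ w : HeightOneSpectrum (𝓞 M), (∀ p ∈ ({n} : Finset ℕ), p ≠ 0 →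
      (p : 𝓞 M) ∉ w.asIdeal) → GoodPr A B M w := fun w hw =>
    hgood M w (hw n (Finset.mem_singleton_self n) hn)
  have h1 := hC1 M x hM hx (fun h => hxE (subset_Ex E h)) W1 (by
    rintro w ⟨P, hP, s1, s2, s3⟩
    have hg := hgp w s1
    rw [hW1, Finset.mem_filter, Set.Finite.mem_toFinset]
    exact ⟨(loc_bad h hW hg).1 P hP s2 s3, hg.1, s2⟩)
  have h2 : ((if InfBad A B then (1 : ℝ) else 0) - κ / 2) * Height.logHeight₁ x ≤
      ∑ w ∈ W2, lN w + |C2| := by
    have hs0 : 0 ≤ ∑ w ∈ W2, lN w := Finset.sum_nonneg fun w _ => (lN_pos w).le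
    have hc0 := abs_nonneg C2
    split_ifs with hI
    · rcases eq_or_ne x 0 with rfl | hx0
      · rw [Height.logHeight₁_zero, mul_zero]
        positivity
      · have h3 := hC2 M x⁻¹ hM (by rw [deg_inv' hx0, hx]) (inv_not_mem hx0 hxE) W2 (by
          rintro w ⟨P, hP, s1, s2, s3⟩
          rw [Finset.mem_singleton] at hP
          subst hP
          have hg := hgp w s1
          have hv : w.valuation M x = WithZero.exp (1 : ℤ) := by
            rw [aeval_X, map_inv₀] at s3
            rw [← inv_inv (w.valuation M x), s3, ← WithZero.exp_neg, neg_neg]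
          rw [hW2, Finset.mem_filter, Set.Finite.mem_toFinset]
          refine ⟨(loc_bad h hW hg).2 hI hv, hg.1, ?_⟩
          rw [hv, ← WithZero.exp_zero, WithZero.exp_lt_exp]
          norm_num)
        rw [Finset.sum_singleton, natDegree_X, Height.logHeight₁_inv] at h3
        push_cast at h3
        have := le_abs_self C2
        linarith
    · have : (0 - κ / 2) * Height.logHeight₁ x ≤ 0 := by nlinarith
      linarith
  have hdisj : Disjoint W1 W2 := by
    rw [Finset.disjoint_left]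
    intro w k1 k2
    rw [hW1, Finset.mem_filter] at k1
    rw [hW2, Finset.mem_filter] at k2
    exact absurd k1.2.2 (not_le.2 k2.2.2)
  have h3 : ∑ w ∈ W1, lN w + ∑ w ∈ W2, lN w ≤ ∑ w ∈ W1 ∪ W2, (mw w W + aw w W) := by
    rw [← Finset.sum_union hdisj]
    refine Finset.sum_le_sum fun w hw => ?_
    rw [Finset.mem_union, hW1, hW2, Finset.mem_filter, Finset.mem_filter,
      Set.Finite.mem_toFinset] at hw
    rcases hw with hw | hw
    · exact bad_le w W hw.2.1 hw.1
    · exact bad_le w W hw.2.1 hw.1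
  have h4 := sum_le_finsum (f := fun w => mw w W + aw w W)
    (fun w => add_nonneg (mw_nonneg w W) (aw_nonneg w W))
    (supp_add (supp_mw W hW.disc) (supp_aw W hW.disc)) (W1 ∪ W2)
  rw [sum_add (supp_mw W hW.disc) (supp_aw W hW.disc)] at h4
  have h5 : (gam A B : ℝ) = ((∑ P ∈ badPl A B, P.natDegree : ℕ) : ℝ) +
      (if InfBad A B then (1 : ℝ) else 0) := by
    unfold gam
    split_ifs <;> push_cast <;> rfl
  rw [h5]
  have := le_abs_self C1
  nlinarith

/-- a bound for the sum of the additional terms -/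
theorem upp {r : ℕ} (hr : 1 ≤ r) {E : Set K[X]} (hE : IsExc K r E) {A B : K[X]} (h : Fam A B)
    (hdeg : ∀ P ∈ badPl A B, P.natDegree ≤ 2 * r + 1) {κ : ℝ} (hκ : 0 < κ) {n : ℕ} (_hn : n ≠ 0) :
    ∃ C : ℝ, 0 ≤ C ∧ ∀ (M : Type) [Field M] [NumberField M] [Algebra K M] (x : M),
      finrank K M = r → (minpoly K x).natDegree = r → minpoly K x ∉ Ex E →
      aeval x (A * (A - 1728 * B) * B) ≠ 0 →
      ∀ T : Finset (HeightOneSpectrum (𝓞 M)), (∀ w ∈ T, (n : 𝓞 M) ∉ w.asIdeal) →
      ∑ w ∈ T, ex A B x w ≤ ((∑ P ∈ badPl A B, mu A B P * P.natDegree + muInf A B : ℕ) + κ) *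
        Height.logHeight₁ x + C := by
  classical
  set κ' : ℝ := κ / (4 * ((badPl A B).card + 1)) with hκ'
  have hκ'0 : 0 < κ' := by positivity
  have hκ'c : 4 * κ' * ((badPl A B).card + 1) = κ := by
    rw [hκ']
    field_simp
  have hC1 : ∀ P : K[X], ∃ C : ℝ, 0 ≤ C ∧ (P ∈ badPl A B → ∀ (M : Type) [Field M]
      [NumberField M] [Algebra K M] (x : M), finrank K M = r → (minpoly K x).natDegree = r →
      minpoly K x ∉ E → aeval x P ≠ 0 →
      ∃ W₁ W₂ : Finset (HeightOneSpectrum (𝓞 M)), (∀ w, w ∈ W₁ ↔ Simple {n} P x w) ∧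
      (∀ w, w ∈ W₂ ↔ Near {n} P x w ∧ ¬ Simple {n} P x w) ∧
      ∑ w ∈ W₁, lN w ≤ P.natDegree * Height.logHeight₁ x + C ∧
      ∑ w ∈ W₂, lN w ≤ κ' * Height.logHeight₁ x + C) := by
    intro P
    by_cases hP : P ∈ badPl A B
    · obtain ⟨g1, g2, g3⟩ := badPl_spec h hdeg P hP
      obtain ⟨C, hC⟩ := Pool.Agent.N271.FROne.t K r hr E hE P g1 g2 g3 {n} κ' hκ'0
      refine ⟨|C|, abs_nonneg C, ?_⟩
      intro _ M _ _ _ x k1 k2 k3 k4
      obtain ⟨W₁, W₂, m1, m2, m3, m4, m5⟩ := hC M x k1 k2 k3 k4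
      have := le_abs_self C
      exact ⟨W₁, W₂, m1, m2, by linarith, by linarith⟩
    · exact ⟨0, le_rfl, fun h => absurd h hP⟩
  choose C hC0 hC using hC1
  obtain ⟨C2, hC2⟩ := Pool.Agent.N271.FROne.t K r hr E hE X monic_X irreducible_X
    (by rw [natDegree_X]; omega) {n} κ' hκ'0
  refine ⟨∑ P ∈ badPl A B, (mu A B P * C P + 4 * C P) + (muInf A B * |C2| + 4 * |C2|),
    add_nonneg (Finset.sum_nonneg fun P _ => by have := hC0 P; positivity) (by positivity), ?_⟩
  intro M _ _ _ x hM hx hxE hne T hT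
  have hh0 : 0 ≤ Height.logHeight₁ x := Height.zero_le_logHeight₁ x
  have hxE' : minpoly K x ∉ E := fun h => hxE (subset_Ex E h)
  have hS : ∀ w ∈ T, ∀ p ∈ ({n} : Finset ℕ), p ≠ 0 → (p : 𝓞 M) ∉ w.asIdeal := by
    intro w hw p hp _
    rw [Finset.mem_singleton] at hp
    subst hp
    exact hT w hw
  have hsplit : ∀ (T1 T2 : Finset (HeightOneSpectrum (𝓞 M)))
      (f : HeightOneSpectrum (𝓞 M) → ℝ) (m : ℝ), 0 ≤ m → (∀ w ∈ T, f w ≤
        (if w ∈ T1 then m * lN w else 0) + (if w ∈ T2 then 4 * lN w else 0)) →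
      ∑ w ∈ T, f w ≤ m * ∑ w ∈ T1, lN w + 4 * ∑ w ∈ T2, lN w := by
    intro T1 T2 f m hm hf
    refine (Finset.sum_le_sum hf).trans ?_
    rw [Finset.sum_add_distrib, ← Finset.sum_filter, ← Finset.sum_filter, Finset.mul_sum,
      Finset.mul_sum]
    refine add_le_add ?_ ?_
    · refine Finset.sum_le_sum_of_subset_of_nonneg ?_ fun w _ _ =>
        mul_nonneg hm (lN_pos w).le
      intro w hw
      exact (Finset.mem_filter.1 hw).2
    · refine Finset.sum_le_sum_of_subset_of_nonneg ?_ fun w _ _ =>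
        mul_nonneg (by norm_num) (lN_pos w).le
      intro w hw
      exact (Finset.mem_filter.1 hw).2
  unfold ex
  rw [Finset.sum_add_distrib, Finset.sum_comm]
  have hfinP : ∀ P ∈ badPl A B, ∑ w ∈ T, (if w.valuation M x ≤ 1 ∧
      w.valuation M (aeval x P) = WithZero.exp (-1 : ℤ) then (mu A B P : ℝ) * lN w
      else if w.valuation M x ≤ 1 ∧ w.valuation M (aeval x P) < 1 then 4 * lN w else 0) ≤
      (mu A B P * P.natDegree + 4 * κ') * Height.logHeight₁ x + (mu A B P * C P + 4 * C P) := by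
    intro P hP
    have hPx : aeval x P ≠ 0 := by
      intro h0
      obtain ⟨Q, hQ⟩ := ((mem_badPl h P).1 hP).1.2.2
      apply hne
      rw [hQ, map_mul, h0, zero_mul]
    obtain ⟨W₁, W₂, m1, m2, m4, m5⟩ := hC P hP M x hM hx hxE' hPx
    have h1 := hsplit W₁ W₂ (fun w => if w.valuation M x ≤ 1 ∧
      w.valuation M (aeval x P) = WithZero.exp (-1 : ℤ) then (mu A B P : ℝ) * lN w
      else if w.valuation M x ≤ 1 ∧ w.valuation M (aeval x P) < 1 then 4 * lN w else 0)
      (mu A B P) (Nat.cast_nonneg _) (by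
      intro w hw
      have hl := lN_pos w
      have q1 : 0 ≤ (if w ∈ W₁ then (mu A B P : ℝ) * lN w else 0) := by
        split_ifs <;> positivity
      have q2 : 0 ≤ (if w ∈ W₂ then 4 * lN w else 0) := by
        split_ifs <;> positivity
      by_cases c1 : w.valuation M x ≤ 1 ∧ w.valuation M (aeval x P) = WithZero.exp (-1 : ℤ)
      · have hw1 : w ∈ W₁ := (m1 w).2 ⟨hS w hw, c1.1, c1.2⟩
        rw [if_pos hw1]
        show (if _ then _ else _) ≤ _
        rw [if_pos c1]
        linarith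
      · show (if _ then _ else _) ≤ _
        rw [if_neg c1]
        by_cases c2 : w.valuation M x ≤ 1 ∧ w.valuation M (aeval x P) < 1
        · have hw2 : w ∈ W₂ := (m2 w).2 ⟨⟨hS w hw, c2.1, c2.2⟩, fun hs => c1 ⟨hs.2.1, hs.2.2⟩⟩
          rw [if_pos c2, if_pos hw2]
          linarith
        · rw [if_neg c2]
          linarith)
    have h2 : (mu A B P : ℝ) * ∑ w ∈ W₁, lN w ≤
        mu A B P * (P.natDegree * Height.logHeight₁ x + C P) :=
      mul_le_mul_of_nonneg_left m4 (Nat.cast_nonneg _)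
    refine h1.trans ?_
    nlinarith
  have hinf : ∑ w ∈ T, (if InfBad A B ∧ w.valuation M x = WithZero.exp (1 : ℤ)
      then (muInf A B : ℝ) * lN w
      else if InfBad A B ∧ 1 < w.valuation M x then 4 * lN w else 0) ≤
      (muInf A B + 4 * κ') * Height.logHeight₁ x + (muInf A B * |C2| + 4 * |C2|) := by
    rcases eq_or_ne x 0 with rfl | hx0
    · rw [Finset.sum_eq_zero, Height.logHeight₁_zero, mul_zero]
      · positivity
      · intro w _
        rw [if_neg, if_neg]
        · rintro ⟨_, h1⟩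
          rw [map_zero] at h1
          exact absurd h1 (not_lt.2 zero_le_one)
        · rintro ⟨_, h1⟩
          rw [map_zero] at h1
          exact WithZero.exp_ne_zero h1.symm
    · obtain ⟨W₁, W₂, m1, m2, _, m4, m5⟩ := hC2 M x⁻¹ hM (by rw [deg_inv' hx0, hx])
        (inv_not_mem hx0 hxE) (by rw [aeval_X]; exact inv_ne_zero hx0)
      rw [natDegree_X, Height.logHeight₁_inv] at m4
      rw [Height.logHeight₁_inv] at m5
      have hinv : ∀ w : HeightOneSpectrum (𝓞 M), 1 < w.valuation M x →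
          w.valuation M x⁻¹ < 1 := by
        intro w h1
        rw [map_inv₀]
        exact inv_lt_one_of_one_lt₀ h1
      have h1 := hsplit W₁ W₂ (fun w => if InfBad A B ∧ w.valuation M x = WithZero.exp (1 : ℤ)
        then (muInf A B : ℝ) * lN w
        else if InfBad A B ∧ 1 < w.valuation M x then 4 * lN w else 0)
        (muInf A B) (Nat.cast_nonneg _) (by
        intro w hw
        have hl := lN_pos w
        have q1 : 0 ≤ (if w ∈ W₁ then (muInf A B : ℝ) * lN w else 0) := by
          split_ifs <;> positivity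
        have q2 : 0 ≤ (if w ∈ W₂ then 4 * lN w else 0) := by
          split_ifs <;> positivity
        by_cases c1 : InfBad A B ∧ w.valuation M x = WithZero.exp (1 : ℤ)
        · have hv : w.valuation M x⁻¹ = WithZero.exp (-1 : ℤ) := by
            rw [map_inv₀, c1.2, ← WithZero.exp_neg]
          have hlt : w.valuation M x⁻¹ < 1 := by
            rw [hv, ← WithZero.exp_zero, WithZero.exp_lt_exp]
            norm_num
          have hw1 : w ∈ W₁ := (m1 w).2 ⟨hS w hw, hlt.le, by rw [aeval_X]; exact hv⟩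
          rw [if_pos hw1]
          show (if _ then _ else _) ≤ _
          rw [if_pos c1]
          linarith
        · show (if _ then _ else _) ≤ _
          rw [if_neg c1]
          by_cases c2 : InfBad A B ∧ 1 < w.valuation M x
          · have hlt := hinv w c2.2
            have hw2 : w ∈ W₂ := (m2 w).2 ⟨⟨hS w hw, hlt.le, by rw [aeval_X]; exact hlt⟩,
              fun hs => c1 ⟨c2.1, by
                have h3 := hs.2.2
                rw [aeval_X, map_inv₀] at h3
                rw [← inv_inv (w.valuation M x), h3, ← WithZero.exp_neg, neg_neg]⟩⟩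
            rw [if_pos c2, if_pos hw2]
            linarith
          · rw [if_neg c2]
            linarith)
      have hc := le_abs_self C2
      have h2 : (muInf A B : ℝ) * ∑ w ∈ W₁, lN w ≤
          muInf A B * ((1 : ℕ) * Height.logHeight₁ x + C2) :=
        mul_le_mul_of_nonneg_left m4 (Nat.cast_nonneg _)
      have h3 : (muInf A B : ℝ) * C2 ≤ muInf A B * |C2| :=
        mul_le_mul_of_nonneg_left hc (Nat.cast_nonneg _)
      refine h1.trans ?_
      push_cast at h2
      nlinarith
  have hsum := Finset.sum_le_sum hfinP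
  rw [Finset.sum_add_distrib, ← Finset.sum_mul, Finset.sum_add_distrib, Finset.sum_const,
    nsmul_eq_mul] at hsum
  refine (add_le_add hsum hinf).trans (le_of_eq ?_)
  have e1 : ((badPl A B).card : ℝ) * (4 * κ') + 4 * κ' = κ := by
    rw [← hκ'c]
    ring
  push_cast
  rw [← e1]
  ring

end

end Pool.Agent.V7H38.FR
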