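import Mathlib
import Pool.Agent.V7H38.FR.Main

/-!
# Project FR, final part: Szpiro's and Frey's inequalities
-/

set_option autoImplicit false

namespace Pool.Agent.V7H38.FR

open NumberField IsDedekindDomain Module Polynomial UniqueFactorizationMonoid
open Pool.Agent.N753.DR Pool.Agent.N751.FR
open Pool.Agent.H691R3 hiding muA mu
open Pool.Agent.W223.AK Pool.Agent.Y733.LS
open Pool.Agent.TH876.FH (GoodAt IsPeriod arch Hj_height)
open Pool.Agent.Y733.FF
open Pool.Agent.N707.DRVkG (Ex)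

section

variable {M : Type} [Field M] [NumberField M]

/-- the finite part of the height of `j` -/
noncomputable def Jf (j : M) : ℝ := ∑ᶠ v : Pr M, Real.log (max (fv v j) 1)

/-- the archimedean part -/
noncomputable def Ji (j : M) : ℝ :=
  ∑ w : InfinitePlace M, (w.mult : ℝ) * Real.log (max (w j) 1)

theorem ht_J (j : M) : Height.logHeight₁ j = Ji j + Jf j := Hj_height j

theorem Ji_nonneg (j : M) : 0 ≤ Ji j :=
  Finset.sum_nonneg fun _ _ => mul_nonneg (Nat.cast_nonneg _) (Real.log_nonneg (le_max_right _ _))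

theorem log_addN_nonneg (W : WeierstrassCurve M) (hW : W.Δ ≠ 0) : 0 ≤ Real.log (addN W) := by
  rw [log_addN W hW]
  have := finsum_nonneg fun v : Pr M => aw_nonneg v W
  positivity

/-- the total discriminant from the local inequalities -/
theorem disc_tot (W : WeierstrassCurve M) (hW : W.Δ ≠ 0) {n : ℕ} (hn : n ≠ 0)
    (e : HeightOneSpectrum (𝓞 M) → ℝ) (hloc : ∀ w : HeightOneSpectrum (𝓞 M),
      (n : 𝓞 M) ∉ w.asIdeal → (discExp w W : ℝ) * lN w ≤
        Real.log (max (fv w (W.c₄ ^ 3 / W.Δ)) 1) + 6 * aw w W + e w) {D : ℝ}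
    (he : ∀ T : Finset (HeightOneSpectrum (𝓞 M)), (∀ w ∈ T, (n : 𝓞 M) ∉ w.asIdeal) →
      ∑ w ∈ T, e w ≤ D) :
    discSum W ≤ Jf (W.c₄ ^ 3 / W.Δ) + 6 * ∑ᶠ w : Pr M, aw w W + D +
      finrank ℚ M * (10 * Real.log n + 12 * Real.log 6) := by
  classical
  have hfin := bad_fin W hW
  obtain ⟨T, hT⟩ : ∃ T, T = hfin.toFinset := ⟨_, rfl⟩
  have e1 : discSum W = ∑ w ∈ T, (discExp w W : ℝ) * lN w := by
    refine finsum_eq_sum_of_support_subset _ ?_
    intro v hv
    rw [Function.mem_support] at hv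
    rw [hT, Set.Finite.coe_toFinset]
    intro hg
    apply hv
    rw [disc_good v W hg]
    simp
  have h1 : ∑ w ∈ T.filter (fun w => (n : 𝓞 M) ∉ w.asIdeal), (discExp w W : ℝ) * lN w ≤
      ∑ w ∈ T.filter (fun w => (n : 𝓞 M) ∉ w.asIdeal),
        Real.log (max (fv w (W.c₄ ^ 3 / W.Δ)) 1) +
      6 * ∑ w ∈ T.filter (fun w => (n : 𝓞 M) ∉ w.asIdeal), aw w W +
      ∑ w ∈ T.filter (fun w => (n : 𝓞 M) ∉ w.asIdeal), e w := by
    rw [Finset.mul_sum, ← Finset.sum_add_distrib, ← Finset.sum_add_distrib]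
    exact Finset.sum_le_sum fun w hw => hloc w (Finset.mem_filter.1 hw).2
  have h2 : ∑ w ∈ T.filter (fun w => ¬ (n : 𝓞 M) ∉ w.asIdeal), (discExp w W : ℝ) * lN w ≤
      ∑ w ∈ T.filter (fun w => ¬ (n : 𝓞 M) ∉ w.asIdeal),
        Real.log (max (fv w (W.c₄ ^ 3 / W.Δ)) 1) +
      10 * ∑ w ∈ T.filter (fun w => ¬ (n : 𝓞 M) ∉ w.asIdeal), lN w +
      12 * ∑ w ∈ T.filter (fun w => ¬ (n : 𝓞 M) ∉ w.asIdeal), -Real.log (fv w 6) := by
    rw [Finset.mul_sum, Finset.mul_sum, ← Finset.sum_add_distrib, ← Finset.sum_add_distrib]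
    exact Finset.sum_le_sum fun w hw => disc_crude w W hW
  have h3 := Finset.sum_filter_add_sum_filter_not T (fun w => (n : 𝓞 M) ∉ w.asIdeal)
    (fun w => (discExp w W : ℝ) * lN w)
  have h4 := Finset.sum_filter_add_sum_filter_not T (fun w => (n : 𝓞 M) ∉ w.asIdeal)
    (fun w => Real.log (max (fv w (W.c₄ ^ 3 / W.Δ)) 1))
  have h5 : ∑ w ∈ T, Real.log (max (fv w (W.c₄ ^ 3 / W.Δ)) 1) ≤ Jf (W.c₄ ^ 3 / W.Δ) :=
    sum_le_finsum (fun w => Real.log_nonneg (le_max_right _ _)) (Fs_ht _) T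
  have h6 : ∑ w ∈ T.filter (fun w => (n : 𝓞 M) ∉ w.asIdeal), aw w W ≤ ∑ᶠ w : Pr M, aw w W :=
    sum_le_finsum (fun w => aw_nonneg w W) (supp_aw W hW) _
  have h7 := he (T.filter (fun w => (n : 𝓞 M) ∉ w.asIdeal)) fun w hw => (Finset.mem_filter.1 hw).2
  have h8 : ∑ w ∈ T.filter (fun w => ¬ (n : 𝓞 M) ∉ w.asIdeal), lN w ≤
      finrank ℚ M * Real.log n := sum_dvd hn _ fun w hw => not_not.1 (Finset.mem_filter.1 hw).2
  have h9 : ∑ w ∈ T.filter (fun w => ¬ (n : 𝓞 M) ∉ w.asIdeal), -Real.log (fv w (6 : M)) ≤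
      finrank ℚ M * Real.log 6 := by
    have hs : (Function.support fun w : Pr M => -Real.log (fv w (6 : M))).Finite := by
      have := Fs_log (K := M) (z := (6 : M)) (by norm_num)
      refine Set.Finite.subset this ?_
      intro w hw
      rw [Function.mem_support] at hw ⊢
      intro h
      apply hw
      have h' : Real.log (fv w (6 : M)) = 0 := h
      rw [h', neg_zero]
    have k1 := sum_le_finsum (fun w => (log_six (K := M) w).1) hs
      (T.filter (fun w => ¬ (n : 𝓞 M) ∉ w.asIdeal))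
    have k2 := fin_nat (K := M) (n := 6) (by norm_num)
    push_cast at k2
    rw [finsum_neg_distrib, k2, neg_neg] at k1
    exact k1
  rw [e1, ← h3]
  linarith

end

section

variable {K : Type} [Field K] [NumberField K]

/-- the height of the parameter is bounded if `j` is `0` or `1728` -/
theorem special {A B : K[X]} (h : Fam A B) (r : ℕ) : ∃ C : ℝ, 0 ≤ C ∧ ∀ (M : Type) [Field M]
    [NumberField M] [Algebra K M] (x : M), finrank K M = r → aeval x B ≠ 0 →
    (aeval x A = 0 ∨ aeval x (A - 1728 * B) = 0) →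
    Height.logHeight₁ x ≤ C ∧ Height.logHeight₁ (aeval x A / aeval x B) ≤ C := by
  obtain ⟨C1, hC1⟩ := Pool.Agent.N490.FR.Ht.t K A B h.cop r
  obtain ⟨C2, hC2⟩ : ∃ C2 : ℝ, C2 = r * Height.logHeight₁ (1728 : K) := ⟨_, rfl⟩
  have hC20 : 0 ≤ C2 := by
    rw [hC2]
    exact mul_nonneg (Nat.cast_nonneg _) (Height.zero_le_logHeight₁ _)
  refine ⟨|C1| + C2, by positivity, ?_⟩
  intro M _ _ _ x hM hB hj
  have h1 := (hC1 M x hM hB).2
  have hh0 : 0 ≤ Height.logHeight₁ x := Height.zero_le_logHeight₁ x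
  have h2 : Height.logHeight₁ (aeval x A / aeval x B) ≤ C2 := by
    rcases hj with hj | hj
    · rw [hj, zero_div, Height.logHeight₁_zero]
      exact hC20
    · have e1 : aeval x (1728 : K[X]) = (1728 : M) := by
        have := map_natCast (aeval (R := K) x) 1728
        exact_mod_cast this
      have e2 : aeval x A / aeval x B = algebraMap K M 1728 := by
        rw [map_sub, map_mul, e1] at hj
        rw [div_eq_iff hB, sub_eq_zero.1 hj]
        congr 1
        have := map_natCast (algebraMap K M) 1728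
        exact_mod_cast this.symm
      have h5 : (finrank K M : ℝ) * Height.logHeight₁ (1728 : K) ≤ C2 := by
        rw [hM, hC2]
      rw [e2, Pool.Agent.N415.DRVK.ht_ext]
      exact h5
  have hd : (1 : ℝ) ≤ (max A.natDegree B.natDegree : ℕ) := by exact_mod_cast h.deg
  have h3 := le_abs_self C1
  constructor
  · nlinarith
  · have := abs_nonneg C1
    linarith

/-- **Szpiro's and Frey's inequalities** outside the exceptional set -/
theorem total {r : ℕ} (hr : 1 ≤ r) {E : Set K[X]} (hE : IsExc K r E) {A B : K[X]} (h : Fam A B)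
    (hdeg : ∀ P ∈ badPl A B, P.natDegree ≤ 2 * r + 1) {κ : ℝ} (hκ : 0 < κ) :
    ∃ C : ℝ, 0 ≤ C ∧ ∀ (M : Type) [Field M] [NumberField M] [Algebra K M] (x : M)
      (W : WeierstrassCurve M), finrank K M = r → (minpoly K x).natDegree = r →
      minpoly K x ∉ Ex E → W.Δ ≠ 0 → aeval x B ≠ 0 →
      W.c₄ ^ 3 / W.Δ = aeval x A / aeval x B →
      (12 - κ) * Height.logHeight₁ x + (discSum W + Ji (W.c₄ ^ 3 / W.Δ)) ≤
        6 * (Real.log (multN W) + Real.log (addN W)) + C ∧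
      (12 - κ) * Height.logHeight₁ x + (Jf (W.c₄ ^ 3 / W.Δ) + Ji (W.c₄ ^ 3 / W.Δ)) ≤
        6 * (Real.log (multN W) + Real.log (addN W) / 2) + C := by
  classical
  obtain ⟨n, hn, hgood⟩ := goodPr h
  obtain ⟨C1, hC10, hC1⟩ := low hr hE h hdeg (κ := κ / 8) (by positivity)
  obtain ⟨C2, hC20, hC2⟩ := upp hr hE h hdeg (κ := κ / 8) (by positivity) hn
  obtain ⟨C3, hC3⟩ := Pool.Agent.N490.FR.Ht.t K A B h.cop r
  obtain ⟨C4, hC40, hC4⟩ := special h r
  have hrh := Pool.Agent.N401.FR.t K A B h.cop h.ne h.deg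
  obtain ⟨N, hN⟩ : ∃ N : ℝ, N = finrank ℚ K * r := ⟨_, rfl⟩
  have hN0 : 0 ≤ N := by rw [hN]; positivity
  have ln0 : 0 ≤ Real.log n := Real.log_natCast_nonneg n
  have l60 : 0 ≤ Real.log 6 := Real.log_nonneg (by norm_num)
  refine ⟨6 * C1 + C2 + |C3| + N * (10 * Real.log n + 12 * Real.log 6) + 14 * C4 +
    22 * (N * Real.log 6), by positivity, ?_⟩
  intro M _ _ _ x W hM hx hxE hΔ hB hj
  have hfr : (finrank ℚ M : ℝ) = N := by
    rw [hN, ← hM, ← Nat.cast_mul, finrank_mul_finrank]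
  have hh0 : 0 ≤ Height.logHeight₁ x := Height.zero_le_logHeight₁ x
  have ha0 : 0 ≤ Real.log (addN W) := log_addN_nonneg W hΔ
  have hm0 : 0 ≤ Real.log (multN W) := log_multN_nonneg W hΔ
  have hi0 := Ji_nonneg (W.c₄ ^ 3 / W.Δ)
  have hhj := ht_J (W.c₄ ^ 3 / W.Δ)
  have q1 : 0 ≤ N * (10 * Real.log n + 12 * Real.log 6) := by positivity
  have q2 : 0 ≤ N * Real.log 6 := by positivity
  have q3 := abs_nonneg C3
  by_cases hsp : aeval x A = 0 ∨ aeval x (A - 1728 * B) = 0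
  · obtain ⟨h1, h2⟩ := hC4 M x hM hB hsp
    have h3 := disc_sum_le W hΔ (δ := 0) le_rfl (by norm_num)
    have h4 : 0 ≤ sp (W.c₄ ^ 3 / W.Δ) := by
      unfold sp
      refine finsum_nonneg fun v => ?_
      split_ifs
      · exact (log_Nv_pos v).le
      · exact le_rfl
    rw [hfr] at h3
    have h5 : ∑ᶠ v : Pr M, Real.log (max (fv v (W.c₄ ^ 3 / W.Δ)) 1) = Jf (W.c₄ ^ 3 / W.Δ) := rfl
    rw [h5] at h3
    rw [← hj] at h2
    have h6 : (12 - κ) * Height.logHeight₁ x ≤ 12 * C4 := by nlinarith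
    constructor
    · nlinarith
    · nlinarith
  · push Not at hsp
    have hW : Cur A B x W := ⟨hΔ, hj, hsp.1, hB, hsp.2⟩
    have hne : aeval x (A * (A - 1728 * B) * B) ≠ 0 := by
      rw [map_mul, map_mul]
      exact mul_ne_zero (mul_ne_zero hsp.1 hsp.2) hB
    have k1 := hC1 M x W hM hx hxE hW
    have k2 := disc_tot W hΔ hn (ex A B x) (fun w hw => loc_disc h hW (hgood M w hw))
      (hC2 M x hM hx hxE hne)
    have k3 := (hC3 M x hM hB).1
    rw [hfr] at k2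
    have ea := log_addN W hΔ
    have em := log_multN W hΔ
    have k5 : ((wt A B : ℕ) : ℝ) + 12 ≤ 6 * gam A B := by exact_mod_cast hrh
    have k6 : ((wt A B : ℕ) : ℝ) = (max A.natDegree B.natDegree : ℕ) +
        (∑ P ∈ badPl A B, mu A B P * P.natDegree + muInf A B : ℕ) := by
      unfold wt
      push_cast
      ring
    obtain ⟨d, hd⟩ : ∃ d : ℝ, d = (max A.natDegree B.natDegree : ℕ) := ⟨_, rfl⟩
    obtain ⟨m, hmm⟩ : ∃ m : ℝ,
      m = (∑ P ∈ badPl A B, mu A B P * P.natDegree + muInf A B : ℕ) := ⟨_, rfl⟩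
    have hm00 : 0 ≤ m := by rw [hmm]; exact Nat.cast_nonneg _
    rw [← hmm] at k2 k6
    rw [← hd] at k3 k6
    rw [k6] at k5
    rw [← hj] at k3
    have k7 := le_abs_self C3
    have k8 : (d + m + 12) * Height.logHeight₁ x ≤ 6 * gam A B * Height.logHeight₁ x :=
      mul_le_mul_of_nonneg_right k5 hh0
    have k9 : 0 ≤ m * Height.logHeight₁ x := mul_nonneg hm00 hh0
    have k10 : 0 ≤ κ * Height.logHeight₁ x := by positivity
    rw [ea, em]
    constructor
    · nlinarith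
    · nlinarith

end

/-- **the theorem of project FR**, from the exceptional set of project DR -/
theorem final (hKE : StmKE) : ∃ c : ℝ, 0 ≤ c ∧ ∀ (K : Type) [Field K] [NumberField K] (r : ℕ),
    1 ≤ r → ∃ E : Set K[X],
    (∀ U : ℝ, 0 ≤ U → {p | p ∈ E ∧ AtH r U p}.Finite ∧
      ({p | p ∈ E ∧ AtH r U p}.ncard : ℝ) ≤ 2 * Real.exp ((r + 1) * U - √U)) ∧
    ∀ A B : K[X], Fam A B → (∀ P ∈ badPl A B, P.natDegree ≤ 2 * r + 1) → ∀ κ : ℝ, 0 < κ →
      ∃ C : ℝ, 0 ≤ C ∧ ∀ (M : Type) [Field M] [NumberField M] [Algebra K M] (x : M)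
      (W : WeierstrassCurve M) (τ : InfinitePlace M → UpperHalfPlane), finrank K M = r →
      (minpoly K x).natDegree = r → minpoly K x ∉ E → W.Δ ≠ 0 → aeval x B ≠ 0 →
      W.c₄ ^ 3 / W.Δ = aeval x A / aeval x B → IsPeriod (W.c₄ ^ 3 / W.Δ) τ →
      (12 - κ) * Height.logHeight₁ x + discSum W ≤
        6 * (Real.log (multN W) + Real.log (addN W)) + C ∧
      (12 - κ) * Height.logHeight₁ x + (discSum W +
        ∑ w : InfinitePlace M, (w.mult : ℝ) * arch (τ w)) ≤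
        6 * (Real.log (multN W) + Real.log (addN W)) + C ∧
      (12 - κ) * Height.logHeight₁ x + (Jf (W.c₄ ^ 3 / W.Δ) +
        ∑ w : InfinitePlace M, (w.mult : ℝ) * arch (τ w)) ≤
        6 * (Real.log (multN W) + Real.log (addN W) / 2) + C := by
  obtain ⟨c, hc0, hc⟩ := arch_le
  refine ⟨c, hc0, ?_⟩
  intro K _ _ r hr
  obtain ⟨E, E', hE, rfl, hcount⟩ := exc hKE K r hr
  refine ⟨Ex E, hcount, ?_⟩
  intro A B hAB hdeg κ hκ
  obtain ⟨C, hC0, hC⟩ := total hr hE hAB hdeg hκ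
  refine ⟨C + c * (finrank ℚ K * r), by positivity, ?_⟩
  intro M _ _ _ x W τ hM hx hxE hΔ hB hj hτ
  have hfr : (finrank ℚ M : ℝ) = finrank ℚ K * r := by
    rw [← hM, ← Nat.cast_mul, finrank_mul_finrank]
  obtain ⟨h1, h2⟩ := hC M x W hM hx hxE hΔ hB hj
  have h3 := hc M (W.c₄ ^ 3 / W.Δ) τ hτ
  rw [hfr] at h3
  have h4 : ∑ w : InfinitePlace M, (w.mult : ℝ) * Real.log (max (w (W.c₄ ^ 3 / W.Δ)) 1) =
    Ji (W.c₄ ^ 3 / W.Δ) := rfl
  rw [h4] at h3
  have h5 := Ji_nonneg (W.c₄ ^ 3 / W.Δ)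
  have h6 : 0 ≤ c * (finrank ℚ K * r) := by positivity
  refine ⟨by linarith, by linarith, by linarith⟩

end Pool.Agent.V7H38.FR
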